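import Mathlib
import Pool.Agent.H32.Witt

namespace Pool.Agent.Results.MP_e2f694_an.SameEnvelope

/-- Submultiplicative seminorms on `A`. -/
def SM (A : Type) [Ring A] [Algebra ℂ A] : Type :=
  {p : Seminorm ℂ A // ∀ x y, p (x * y) ≤ p x * p y}

/-- The uniform structure on `A` defined by all submultiplicative seminorms. -/
@[reducible] noncomputable def amU (A : Type) [Ring A] [Algebra ℂ A] : UniformSpace A :=
  ⨅ p : SM A, p.1.toSeminormedAddCommGroup.toUniformSpace

/-- The Arens-Michael envelope: the Hausdorff completion of `A` for `amU A`. -/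
abbrev Env (A : Type) [Ring A] [Algebra ℂ A] : Type := @UniformSpace.Completion A (amU A)

/-- The enveloping map `A → Env A`. -/
noncomputable def ι (A : Type) [Ring A] [Algebra ℂ A] (a : A) : Env A :=
  @UniformSpace.Completion.coe' A (amU A) a

lemma uc {A B : Type} [Ring A] [Algebra ℂ A] [Ring B] [Algebra ℂ B] (f : A →ₐ[ℂ] B) :
    @UniformContinuous A B (amU A) (amU B) f := by
  refine uniformContinuous_iInf_rng.2 fun q => ?_
  refine uniformContinuous_iInf_dom (i := (⟨q.1.comp f.toLinearMap, fun x y => by
    simpa using q.2 (f x) (f y)⟩ : SM A)) ?_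
  let _ := (q.1.comp f.toLinearMap).toSeminormedAddCommGroup
  let _ := q.1.toSeminormedAddCommGroup
  exact (AddMonoidHomClass.isometry_of_norm f fun _ => rfl).uniformContinuous

lemma ker_mem {A : Type} [SeminormedAddCommGroup A] {a b : A} (h : ‖a - b‖ = 0) :
    (a, b) ∈ (uniformity A).ker :=
  inseparable_iff_ker_uniformity.1 (Metric.inseparable_iff.2 (by rwa [dist_eq_norm]))

lemma ι_eq {A : Type} [Ring A] [Algebra ℂ A] {a b : A} (h : ∀ p : SM A, p.1 (a - b) = 0) :
    ι A a = ι A b := by
  let _ := amU A
  refine (Inseparable.map ?_ (UniformSpace.Completion.continuous_coe A)).eq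
  rw [inseparable_iff_ker_uniformity, iInf_uniformity, Filter.ker_iInf, Set.mem_iInter]
  intro p
  exact @ker_mem A p.1.toSeminormedAddCommGroup a b (h p)

open Pool.Agent.H32.Witt in
theorem result : ∃ (H₁ H₂ : Type) (_ : Ring H₁) (_ : HopfAlgebra ℂ H₁) (_ : Ring H₂)
    (_ : HopfAlgebra ℂ H₂), Algebra.FiniteType ℂ H₁ ∧ Algebra.FiniteType ℂ H₂ ∧
    (∃ (π : H₁ →ₐc[ℂ] H₂) (Φ : Env H₁ ≃ᵤ Env H₂),
      (∀ a, π (HopfAlgebraStruct.antipode ℂ a) = HopfAlgebraStruct.antipode ℂ (π a)) ∧
      ∀ a, Φ (ι H₁ a) = ι H₂ (π a)) ∧
    IsEmpty (H₁ ≃ₐ[ℂ] H₂) := by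
  let _ := hopf
  refine ⟨H, ℂ, inferInstance, hopf, inferInstance, inferInstance, ft, inferInstance,
    ⟨Bialgebra.counitBialgHom ℂ H, ?_⟩, ⟨fun e => ?_⟩⟩
  · let _ := amU H
    let _ := amU ℂ
    have u1 := uc E
    have u2 := uc (Algebra.ofId ℂ H)
    refine ⟨{ toFun := UniformSpace.Completion.map E
              invFun := UniformSpace.Completion.map (Algebra.ofId ℂ H)
              left_inv := fun x => ?_
              right_inv := fun x => ?_
              uniformContinuous_toFun := UniformSpace.Completion.uniformContinuous_map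
              uniformContinuous_invFun := UniformSpace.Completion.uniformContinuous_map },
      fun a => ?_, fun a => ?_⟩
    · refine UniformSpace.Completion.induction_on x (isClosed_eq
        (UniformSpace.Completion.continuous_map.comp UniformSpace.Completion.continuous_map)
        continuous_id) fun a => ?_
      rw [UniformSpace.Completion.map_coe u1, UniformSpace.Completion.map_coe u2]
      exact (ι_eq fun p => kill' p.1 p.2 a).symm
    · refine UniformSpace.Completion.induction_on x (isClosed_eq
        (UniformSpace.Completion.continuous_map.comp UniformSpace.Completion.continuous_map)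
        continuous_id) fun a => ?_
      rw [UniformSpace.Completion.map_coe u2, UniformSpace.Completion.map_coe u1]
      simp [Algebra.ofId_apply]
    · exact HopfAlgebra.counit_antipode a
    · exact UniformSpace.Completion.map_coe u1 a
  · apply L_ne
    have h4 := br 1 (-1)
    have h5 : e (L 1 * L (-1)) = e (L (-1) * L 1) := by rw [map_mul, map_mul, mul_comm]
    rw [e.injective h5] at h4
    have : ((1 : ℂ) + 1) ≠ 0 := by norm_num
    simpa [this] using h4

end Pool.Agent.Results.MP_e2f694_an.SameEnvelope
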